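import Pool.Agent.UL5.Stmts
import Pool.Agent.Helper75_UL3.PAC
import Pool.Agent.Helper23_UL3.PLN

/-!
Squad UL5 (MP_c7c9bf_co), row CHB (helper37): the chord bound.
-/

set_option autoImplicit false

namespace Pool.Agent.UL5.H37

open MeasureTheory Set Pool.Agent.UL3 Pool.Agent.UL4

theorem chb (hHMX : HmxStmt) : ChbStmt := by
  intro C u hC hu hui
  obtain ⟨hm1, hm2, -, hm4, -⟩ := hHMX C hC
  have h0i : (0 : ℝ × ℝ) ∈ interior C := hC.zero_mem
  have hu0 : u ≠ 0 := by
    rintro rfl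
    exact hui h0i
  set H : ℝ := Hm C u with hH
  have hHpos : 0 < H := hm4 u hu0
  -- support functional at `u`
  obtain ⟨f, hf⟩ := geometric_hahn_banach_open_point hC.cvx.interior isOpen_interior hui
  have hfu : 0 < f u := by
    have h1 := hf 0 h0i
    rwa [map_zero] at h1
  have hfle : ∀ x ∈ C, f x ≤ f u := by
    intro x hx
    have h1 : x ∈ closure (interior C) := by
      rw [hC.cvx.closure_interior_eq_closure_of_nonempty_interior hC.int]
      exact subset_closure hx
    have h2 : closure (interior C) ⊆ {x | f x ≤ f u} :=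
      closure_minimal (fun y hy => (hf y hy).le) (isClosed_le f.continuous continuous_const)
    exact h2 h1
  have hfabs : ∀ x ∈ C, |f x| ≤ f u := by
    intro x hx
    rw [abs_le]
    refine ⟨?_, hfle x hx⟩
    have h1 := hfle _ (hC.sym x hx)
    rw [map_neg] at h1
    linarith
  obtain ⟨α, hα⟩ : ∃ α : ℝ, α = f (1, 0) := ⟨_, rfl⟩
  obtain ⟨β, hβ⟩ : ∃ β : ℝ, β = f (0, 1) := ⟨_, rfl⟩
  have hfx : ∀ x : ℝ × ℝ, f x = α * x.1 + β * x.2 := by
    intro x
    have h1 : x = x.1 • ((1, 0) : ℝ × ℝ) + x.2 • ((0, 1) : ℝ × ℝ) := by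
      ext <;> simp
    rw [h1, map_add, map_smul, map_smul, ← hα, ← hβ]
    simp only [smul_eq_mul, Prod.fst_add, Prod.snd_add, Prod.smul_fst, Prod.smul_snd]
    ring
  obtain ⟨v, hv⟩ : ∃ v : ℝ × ℝ, v = (-β / f u, α / f u) := ⟨_, rfl⟩
  have hfu' : f u ≠ 0 := hfu.ne'
  have hfv : f v = 0 := by
    rw [hfx v, hv]
    field_simp
    ring
  have huv : cr u v = 1 := by
    rw [hv]
    unfold cr
    simp only
    have h1 := hfx u
    field_simp
    rw [h1]
    ring
  -- coordinates
  obtain ⟨N, hN⟩ : ∃ N : Set (ℝ × ℝ), N = (Pool.Agent.UL3.H23.Ph v u) ⁻¹' C := ⟨_, rfl⟩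
  have hmem : ∀ t s : ℝ, (t, s) ∈ N ↔ t • v + s • u ∈ C := by
    intro t s
    rw [hN, mem_preimage, Pool.Agent.UL3.H23.ph_apply]
    have h1 : (v.1 * (t, s).1 + u.1 * (t, s).2, v.2 * (t, s).1 + u.2 * (t, s).2) =
        t • v + s • u := by
      ext
      · simp only [Prod.fst_add, Prod.smul_fst, smul_eq_mul]
        ring
      · simp only [Prod.snd_add, Prod.smul_snd, smul_eq_mul]
        ring
    rw [h1]
  have hcrv : cr v u = -1 := by
    have h1 : cr v u = - cr u v := by
      unfold cr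
      ring
    rw [h1, huv]
  have hvol : volume N = volume C := by
    have h1 : volume N =
        ENNReal.ofReal |(LinearMap.det (Pool.Agent.UL3.H23.Ph v u))⁻¹| *
          (volume : Measure (ℝ × ℝ)) C := by
      rw [hN]
      apply MeasureTheory.Measure.addHaar_preimage_linearMap
      rw [Pool.Agent.UL3.H23.ph_det, hcrv]
      norm_num
    rw [h1, Pool.Agent.UL3.H23.ph_det, hcrv]
    norm_num
  have hCfin : volume C ≠ ⊤ := hC.cpt.measure_lt_top.ne
  have hNcv : Convex ℝ N := by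
    rw [hN]
    exact hC.cvx.linear_preimage _
  have hNs : ∀ t s : ℝ, (t, s) ∈ N → (-t, -s) ∈ N := by
    intro t s h
    rw [hmem] at h ⊢
    have h1 := hC.sym _ h
    have h2 : -(t • v + s • u) = (-t) • v + (-s) • u := by module
    rwa [h2] at h1
  have hcrts : ∀ t s : ℝ, cr u (t • v + s • u) = t := by
    intro t s
    have h1 : cr u (t • v + s • u) = t * cr u v := by
      unfold cr
      simp only [Prod.fst_add, Prod.snd_add, Prod.smul_fst, Prod.smul_snd, smul_eq_mul]
      ring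
    rw [h1, huv, mul_one]
  have hdec : ∀ x : ℝ × ℝ, (cr u x) • v + (cr x v) • u = x := by
    intro x
    have h1 : (cr u x) • v + (cr x v) • u = (cr u v) • x := by
      unfold cr
      ext
      · simp only [Prod.fst_add, Prod.smul_fst, smul_eq_mul]
        ring
      · simp only [Prod.snd_add, Prod.smul_snd, smul_eq_mul]
        ring
    rw [h1, huv, one_smul]
  have har : ar C = (volume N).toReal := by
    rw [hvol]
    rfl
  have hfirst : ar C ≤ 4 * H := by
    have hsub : N ⊆ Icc (-H) H ×ˢ Icc (-1 : ℝ) 1 := by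
      rintro ⟨t, s⟩ hts
      rw [hmem] at hts
      have h1 := hm1 u _ hts
      rw [hcrts, abs_le] at h1
      have h2 := hfabs _ hts
      rw [map_add, map_smul, map_smul, hfv, smul_zero, zero_add, smul_eq_mul, abs_mul,
        abs_of_pos hfu] at h2
      have h3 : |s| ≤ 1 := by
        by_contra h4
        push Not at h4
        nlinarith
      rw [abs_le] at h3
      exact ⟨h1, h3⟩
    have h1 : volume N ≤ ENNReal.ofReal (4 * H) := by
      refine (measure_mono hsub).trans (le_of_eq ?_)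
      rw [Measure.volume_eq_prod, Measure.prod_prod, Real.volume_Icc, Real.volume_Icc,
        ← ENNReal.ofReal_mul (by linarith)]
      congr 1
      ring
    rw [har]
    exact ENNReal.toReal_le_of_le_ofReal (by positivity) h1
  refine ⟨hfirst, ?_⟩
  intro x l hx hxY hxl
  have har0 : 0 ≤ ar C := by
    rw [har]
    exact ENNReal.toReal_nonneg
  rcases lt_or_ge l 0 with hl | hl
  · nlinarith
  obtain ⟨Y, hY⟩ : ∃ Y : ℝ, Y = ar C / 4 := ⟨_, rfl⟩
  have hY0 : 0 ≤ Y := by linarith
  have hYH : Y ≤ H := by linarith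
  obtain ⟨w, hw, hwH⟩ := hm2 u
  -- the points
  have n1 : ((0, 1) : ℝ × ℝ) ∈ N := by
    rw [hmem, zero_smul, zero_add, one_smul]
    exact hu
  have n2 : ((0, -1) : ℝ × ℝ) ∈ N := by
    have h1 := hNs _ _ n1
    rwa [neg_zero] at h1
  have n3 : ((Y, cr x v) : ℝ × ℝ) ∈ N := by
    rw [hmem, hY, ← hxY, hdec]
    exact hx
  have n4 : ((Y, cr x v + l) : ℝ × ℝ) ∈ N := by
    rw [hmem, add_smul, ← add_assoc, hY, ← hxY, hdec]
    exact hxl
  have n5 : ((H, cr w v) : ℝ × ℝ) ∈ N := by
    rw [hmem, hH, ← hwH, hdec]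
    exact hw
  have n3' := hNs _ _ n3
  have n4' := hNs _ _ n4
  have n5' := hNs _ _ n5
  have a1 := Pool.Agent.UL3.H75.trap N hNcv 0 Y (-1) 1 (cr x v) (cr x v + l) hY0 n2 n1 n3 n4
    (by norm_num) (by linarith)
  have a2 := Pool.Agent.UL3.H75.trap N hNcv Y H (cr x v) (cr x v + l) (cr w v) (cr w v) hYH n3 n4
    n5 n5 (by linarith) le_rfl
  have a3 := Pool.Agent.UL3.H75.trap N hNcv (-Y) 0 (-(cr x v + l)) (-(cr x v)) (-1) 1 (by linarith)
    n4' n3' n2 n1 (by linarith) (by norm_num)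
  have a4 := Pool.Agent.UL3.H75.trap N hNcv (-H) (-Y) (-(cr w v)) (-(cr w v)) (-(cr x v + l))
    (-(cr x v)) (by linarith) n5' n5' n4' n3' le_rfl (by linarith)
  have hNm : MeasurableSet N := by
    rw [hN]
    have h1 : Measurable (Pool.Agent.UL3.H23.Ph v u) :=
      (LinearMap.continuous_of_finiteDimensional _).measurable
    exact h1 hC.cpt.isClosed.measurableSet
  have b1 := Pool.Agent.UL3.H75.strip_add N hNm 0 Y H hY0 hYH
  have b2 := Pool.Agent.UL3.H75.strip_add N hNm (-H) (-Y) 0 (by linarith) (by linarith)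
  have b3 := Pool.Agent.UL3.H75.strip_add N hNm (-H) 0 H (by linarith) hHpos.le
  have b4 : volume (Pool.Agent.UL3.H75.strip N (-H) H) ≤ volume N :=
    measure_mono inter_subset_left
  have c0 : ENNReal.ofReal ((-Y - -H) * ((-(cr w v) - -(cr w v)) +
        (-(cr x v) - -(cr x v + l))) / 2) + ENNReal.ofReal ((0 - -Y) * ((-(cr x v) -
        -(cr x v + l)) + (1 - -1)) / 2) + (ENNReal.ofReal ((Y - 0) * ((1 - -1) +
        (cr x v + l - cr x v)) / 2) + ENNReal.ofReal ((H - Y) * ((cr x v + l - cr x v) +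
        (cr w v - cr w v)) / 2)) ≤ volume N :=
    (add_le_add ((add_le_add a4 a3).trans b2) ((add_le_add a1 a2).trans b1)).trans (b3.trans b4)
  have p1 : 0 ≤ (H - Y) * l := mul_nonneg (by linarith) hl
  have p2 : 0 ≤ Y * (2 + l) := mul_nonneg hY0 (by linarith)
  rw [← ENNReal.ofReal_add (by nlinarith) (by nlinarith),
    ← ENNReal.ofReal_add (by nlinarith) (by nlinarith),
    ← ENNReal.ofReal_add (by nlinarith) (by nlinarith),
    ENNReal.ofReal_le_iff_le_toReal (by rw [hvol]; exact hCfin), ← har] at c0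
  have hY4 : ar C = 4 * Y := by linarith
  nlinarith

end Pool.Agent.UL5.H37
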